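import Pool.Agent.K1H19.Kom2.Stm3
import Pool.Agent.K1H52.Kom2_ACCB1
import Pool.Agent.K1H30.Kom.Accb2

/-!
# Cost of a row and sum over the rows, for all sizes of the entries
-/

namespace K19Kom2

open Finset K19Kom Pool.Agent.K1H24.Kom Pool.Agent.K1H52.Kom2

theorem Bm_le (t : ℝ) (q : ℕ) : Bm t q ≤ Real.sqrt t * bd q := by
  unfold Bm
  refine (min_le_right _ _).trans (le_of_eq ?_)
  unfold bd; ring

/-- Cost of one row, second bound. -/
theorem acc3 (hW : S_WHIT2) {t : ℝ} (ht : 1 ≤ t) {p0 d : ℕ} (Rel : ℕ → ℕ → Finset (Fin d))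
    (i : Fin d) (P : ℕ)
    (hP : ∀ T < stt p0 i, i ∈ Rel T (lvl2 p0 (stt p0 i) T) → lvl2 p0 (stt p0 i) T ≤ P) :
    128 + paid3 t p0 Rel i 0 ≤ 60 * (Real.sqrt t * bd P) := by
  classical
  obtain ⟨k, hk⟩ : ∃ k : ℕ, stt p0 i = k * 2 ^ p0 := ⟨_, rfl⟩
  obtain ⟨l, hl⟩ : ∃ l : ℕ, l = k * 2 ^ p0 := ⟨_, rfl⟩
  have hst1 : 1 ≤ Real.sqrt t := Real.one_le_sqrt.2 ht
  have hc4 : ∀ p, ((range l).filter fun T => 2 ^ lvl2 p0 l T ∣ T + 1 ∧ lvl2 p0 l T = p).card ≤ 4 := by
    intro p
    rw [hl]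
    exact card_le_four2 hW p0 k p
  rw [← hl] at hk
  have hB0 : ∀ q, 0 ≤ Real.sqrt t * bd q := fun q =>
    mul_nonneg (Real.sqrt_nonneg t) (bd_pos q).le
  -- bound of the terms
  have h1 : paid3 t p0 Rel i 0 ≤ ∑ T ∈ (range l).filter (fun T => 2 ^ lvl2 p0 l T ∣ T + 1),
      ((if lvl2 p0 l T ≤ P then Real.sqrt t * bd (lvl2 p0 l T) else 0) + Sc t (lvl2 p0 l T)) := by
    unfold paid3
    rw [hk, ← Finset.range_eq_Ico]
    apply Finset.sum_le_sum
    intro T hT
    rw [Finset.mem_filter, Finset.mem_range] at hT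
    have h2 := hP T (by rw [hk]; exact hT.1)
    rw [hk] at h2
    have h3 := Sc_nonneg t (lvl2 p0 l T)
    have h4 := hB0 (lvl2 p0 l T)
    have h4' := Bm_le t (lvl2 p0 l T)
    by_cases h5 : i ∈ Rel T (lvl2 p0 l T)
    · rw [if_pos h5, if_pos (h2 h5)]
      linarith
    · rw [if_neg h5]
      split_ifs <;> linarith
  -- grouping by the level
  have h2 : ∑ T ∈ (range l).filter (fun T => 2 ^ lvl2 p0 l T ∣ T + 1),
      ((if lvl2 p0 l T ≤ P then Real.sqrt t * bd (lvl2 p0 l T) else 0) + Sc t (lvl2 p0 l T)) =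
      ∑ p ∈ Ico p0 (p0 + l + 1), ∑ T ∈ ((range l).filter
        (fun T => 2 ^ lvl2 p0 l T ∣ T + 1)).filter
        (fun T => lvl2 p0 l T = p), ((if lvl2 p0 l T ≤ P then Real.sqrt t * bd (lvl2 p0 l T)
          else 0) + Sc t (lvl2 p0 l T)) := by
    rw [Finset.sum_fiberwise_of_maps_to]
    intro T _
    rw [Finset.mem_Ico]
    have h3 : lvl l T ≤ l := Nat.findGreatest_le l
    unfold lvl2
    omega
  have h3 : ∀ p ∈ Ico p0 (p0 + l + 1), ∑ T ∈ ((range l).filter
        (fun T => 2 ^ lvl2 p0 l T ∣ T + 1)).filter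
        (fun T => lvl2 p0 l T = p), ((if lvl2 p0 l T ≤ P then Real.sqrt t * bd (lvl2 p0 l T)
          else 0) + Sc t (lvl2 p0 l T)) ≤ 4 * ((if p ≤ P then Real.sqrt t * bd p else 0)
            + Sc t p) := by
    intro p _
    have e1 : ∀ T ∈ ((range l).filter (fun T => 2 ^ lvl2 p0 l T ∣ T + 1)).filter
        (fun T => lvl2 p0 l T = p), ((if lvl2 p0 l T ≤ P then Real.sqrt t * bd (lvl2 p0 l T)
          else 0) + Sc t (lvl2 p0 l T)) = ((if p ≤ P then Real.sqrt t * bd p else 0) + Sc t p) := by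
      intro T hT
      rw [Finset.mem_filter] at hT
      rw [hT.2]
    rw [Finset.sum_congr rfl e1, Finset.sum_const, nsmul_eq_mul, Finset.filter_filter]
    have e2 : (((range l).filter fun T => 2 ^ lvl2 p0 l T ∣ T + 1 ∧ lvl2 p0 l T = p).card : ℝ) ≤ 4 := by
      exact_mod_cast hc4 p
    have e3 : 0 ≤ (if p ≤ P then Real.sqrt t * bd p else 0) + Sc t p := by
      have := hB0 p
      have := Sc_nonneg t p
      split_ifs <;> positivity
    exact mul_le_mul_of_nonneg_right e2 e3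
  have h4 : paid3 t p0 Rel i 0 ≤ 4 * (∑ p ∈ Ico p0 (p0 + l + 1),
      (if p ≤ P then Real.sqrt t * bd p else 0) + ∑ p ∈ Ico p0 (p0 + l + 1), Sc t p) := by
    refine h1.trans ?_
    rw [h2, ← Finset.sum_add_distrib, Finset.mul_sum]
    exact Finset.sum_le_sum h3
  have h5 : ∑ p ∈ Ico p0 (p0 + l + 1), (if p ≤ P then Real.sqrt t * bd p else 0)
      ≤ Real.sqrt t * (20 / 3 * bd P) := by
    rw [← Finset.sum_filter]
    refine le_trans (Finset.sum_le_sum_of_subset_of_nonneg (t := range (P + 1)) ?_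
      fun p _ _ => hB0 p) ?_
    · intro p hp
      rw [Finset.mem_filter, Finset.mem_Ico] at hp
      rw [Finset.mem_range]
      omega
    · rw [← Finset.mul_sum]
      exact mul_le_mul_of_nonneg_left (sum_bd P) (Real.sqrt_nonneg t)
  have h6 : ∑ p ∈ Ico p0 (p0 + l + 1), Sc t p ≤ Real.sqrt t * (20 / 3 * bd 0) := by
    calc ∑ p ∈ Ico p0 (p0 + l + 1), Sc t p ≤ ∑ p ∈ range (p0 + l + 1), Sc t p := by
          apply Finset.sum_le_sum_of_subset_of_nonneg
          · intro p hp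
            rw [Finset.mem_Ico] at hp
            rw [Finset.mem_range]
            omega
          · intro p _ _
            exact Sc_nonneg t p
      _ = Real.sqrt t * ∑ p ∈ range (p0 + l + 1), bd p / 2 ^ p := by
          rw [Finset.mul_sum]
          exact Finset.sum_congr rfl fun p _ => Sc_eq t p
      _ ≤ Real.sqrt t * (20 / 3 * bd 0) :=
          mul_le_mul_of_nonneg_left (sum_bd_div _) (Real.sqrt_nonneg t)
  have h8 := mul_le_mul_of_nonneg_left (bd_zero_le P) (Real.sqrt_nonneg t)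
  have h9 : Real.sqrt t * bd 0 = 2600 * Real.sqrt t := by rw [bd_zero]; ring
  linarith

open Pool.Agent.K1H30.KomA Pool.Agent.K1H30.KomB in
/-- The sum over the first `m` rows. -/
theorem sum_gen (hW : S_WHIT2) {p0 d : ℕ} {c : ℝ} (hc : c ≤ Real.log 2 / 4)
    (Rel : ℕ → ℕ → Finset (Fin d))
    (hRel : ∀ T p, ((Rel T p).card : ℝ) ≤ 64 * 2 ^ (T + 1) * 16 ^ p) (F : Fin d → ℝ)
    (hF0 : ∀ i : Fin d, (∀ T < stt p0 i, i ∈ Rel T (lvl2 p0 (stt p0 i) T) →
      lvl2 p0 (stt p0 i) T ≤ p0) → F i ≤ 0)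
    (hF1 : ∀ (i : Fin d) (r : ℕ), p0 ≤ r → (∀ T < stt p0 i, i ∈ Rel T (lvl2 p0 (stt p0 i) T) →
      lvl2 p0 (stt p0 i) T ≤ r + 1) → F i ≤ WW r)
    (m : ℕ) (hm : m ≤ d) :
    ∑ i ∈ Finset.univ.filter (fun i : Fin d => i.val < m), F i
      ≤ 1006632960 * Real.exp (-(c * 2 ^ p0)) * m := by
  classical
  rcases Nat.eq_zero_or_pos m with hm0 | hm0
  · subst hm0
    simp
  set M : ℕ := Nat.log 2 m with hM
  set Q : Fin d → ℕ := fun i =>
    ((range (stt p0 i)).filter (fun T => i ∈ Rel T (lvl2 p0 (stt p0 i) T))).sup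
      (fun T => lvl2 p0 (stt p0 i) T) with hQ
  have hxQ : ∀ i, ∀ T < stt p0 i, i ∈ Rel T (lvl2 p0 (stt p0 i) T) →
      lvl2 p0 (stt p0 i) T ≤ Q i := by
    intro i T hT hi
    exact Finset.le_sup (f := fun T => lvl2 p0 (stt p0 i) T)
      (mem_filter.mpr ⟨mem_range.mpr hT, hi⟩)
  have hnn : ∀ (i : Fin d) (r T : ℕ), (0 : ℝ) ≤ if i ∈ Rel T (r + 1) then WW r else 0 := by
    intro i r T
    split_ifs
    · exact (WW_pos r).le
    · exact le_rfl
  have hpt : ∀ i ∈ univ.filter (fun i : Fin d => i.val < m),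
      F i ≤
      ∑ r ∈ (range (M + 1)).filter (fun r => p0 ≤ r),
        ∑ T ∈ (range (M + 1)).filter (fun T => T + 2 ^ r ≤ M),
          (if i ∈ Rel T (r + 1) then WW r else 0) := by
    intro i hi
    rw [mem_filter] at hi
    by_cases hcase : Q i ≤ p0
    · have h3 : F i ≤ 0 := hF0 i fun T hT hi => (hxQ i T hT hi).trans hcase
      exact h3.trans (sum_nonneg fun r _ => sum_nonneg fun T _ => hnn i r T)
    · have hcase' : p0 < Q i := by omega
      obtain ⟨r, hr⟩ : ∃ r, Q i = r + 1 := ⟨Q i - 1, by omega⟩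
      have hr0 : p0 ≤ r := by omega
      have h4 : F i ≤ WW r := hF1 i r hr0 fun T hT hi => by
        rw [← hr]
        exact hxQ i T hT hi
      refine h4.trans ?_
      -- the time
      have hne : ((range (stt p0 i)).filter
          (fun T => i ∈ Rel T (lvl2 p0 (stt p0 i) T))).Nonempty := by
        by_contra hcon
        rw [not_nonempty_iff_eq_empty] at hcon
        have h0 : Q i = 0 := by
          show ((range (stt p0 i)).filter (fun T => i ∈ Rel T (lvl2 p0 (stt p0 i) T))).sup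
            (fun T => lvl2 p0 (stt p0 i) T) = 0
          rw [hcon]
          simp
        omega
      obtain ⟨T, hT, hTe⟩ := exists_mem_eq_sup _ hne (fun T => lvl2 p0 (stt p0 i) T)
      rw [mem_filter, mem_range] at hT
      have hTe' : Q i = lvl2 p0 (stt p0 i) T := hTe
      have hsc : scl i ≤ M := by
        unfold scl
        exact Nat.log_mono_right (by omega)
      have hT1 := (hW p0 (scl i / 2 ^ p0 + 1)).1 T hT.1 (by
        show p0 < lvl2 p0 (stt p0 i) T
        omega)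
      have hT2 : T + 2 ^ (r + 1) ≤ stt p0 i := by
        rw [← hr, hTe']
        exact hT1
      have hst : stt p0 i ≤ M + 2 ^ r := by
        unfold stt
        have a1 : scl i / 2 ^ p0 * 2 ^ p0 ≤ scl i := Nat.div_mul_le_self _ _
        have a2 : (2 : ℕ) ^ p0 ≤ 2 ^ r := Nat.pow_le_pow_right (by norm_num) hr0
        have a3 : (scl i / 2 ^ p0 + 1) * 2 ^ p0 = scl i / 2 ^ p0 * 2 ^ p0 + 2 ^ p0 := by ring
        rw [a3]
        omega
      have h3' : T + 2 ^ r ≤ M := by
        have a4 : (2 : ℕ) ^ (r + 1) = 2 ^ r + 2 ^ r := by ring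
        omega
      have h4' : r < 2 ^ r := Nat.lt_two_pow_self
      have h5 : r ∈ (range (M + 1)).filter (fun r => p0 ≤ r) := by
        rw [mem_filter, mem_range]
        exact ⟨by omega, hr0⟩
      have h6 : T ∈ (range (M + 1)).filter (fun T => T + 2 ^ r ≤ M) := by
        rw [mem_filter, mem_range]
        exact ⟨by omega, h3'⟩
      have h7 : i ∈ Rel T (r + 1) := by rw [← hr, hTe']; exact hT.2
      have h8 : WW r ≤ ∑ T ∈ (range (M + 1)).filter (fun T => T + 2 ^ r ≤ M),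
            (if i ∈ Rel T (r + 1) then WW r else 0) := by
        have h9 := single_le_sum (f := fun T => if i ∈ Rel T (r + 1) then WW r else 0)
          (fun T _ => hnn i r T) h6
        simpa [h7] using h9
      have h10 : ∑ T ∈ (range (M + 1)).filter (fun T => T + 2 ^ r ≤ M),
            (if i ∈ Rel T (r + 1) then WW r else 0) ≤
          ∑ r ∈ (range (M + 1)).filter (fun r => p0 ≤ r),
            ∑ T ∈ (range (M + 1)).filter (fun T => T + 2 ^ r ≤ M),
              (if i ∈ Rel T (r + 1) then WW r else 0) :=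
        single_le_sum (f := fun r => ∑ T ∈ (range (M + 1)).filter (fun T => T + 2 ^ r ≤ M),
            (if i ∈ Rel T (r + 1) then WW r else 0))
          (fun r _ => sum_nonneg fun T _ => hnn i r T) h5
      exact h8.trans h10
  refine (sum_le_sum hpt).trans ?_
  have hm1 : (2 : ℝ) ^ M ≤ m := by
    exact_mod_cast Nat.pow_log_le_self 2 (by omega)
  have hm0' : (0 : ℝ) ≤ m := Nat.cast_nonneg m
  set e0 : ℝ := Real.exp (-(c * 2 ^ p0)) with he0
  have he0pos : 0 < e0 := Real.exp_pos _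
  have hWe : 1 ≤ WW p0 * e0 := by
    unfold WW
    rw [he0, ← Real.exp_add]
    apply Real.one_le_exp
    have h2 : c * 2 ^ p0 ≤ Real.log 2 / 4 * 2 ^ p0 :=
      mul_le_mul_of_nonneg_right hc (by positivity)
    linarith
  have hswap : ∑ i ∈ univ.filter (fun i : Fin d => i.val < m),
      ∑ r ∈ (range (M + 1)).filter (fun r => p0 ≤ r),
        ∑ T ∈ (range (M + 1)).filter (fun T => T + 2 ^ r ≤ M),
          (if i ∈ Rel T (r + 1) then WW r else 0) ≤
      ∑ r ∈ (range (M + 1)).filter (fun r => p0 ≤ r),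
        503316480 * (1 / 2 : ℝ) ^ r * (e0 * (m : ℝ)) := by
    rw [sum_comm]
    apply sum_le_sum
    intro r hr
    have hr0 : p0 ≤ r := (mem_filter.mp hr).2
    rw [sum_comm]
    have h2 : ∀ T ∈ (range (M + 1)).filter (fun T => T + 2 ^ r ≤ M),
        ∑ i ∈ univ.filter (fun i : Fin d => i.val < m), (if i ∈ Rel T (r + 1) then WW r else 0)
          ≤ (64 * 2 ^ (T + 1) * 16 ^ r) * (16 * WW r) := by
      intro T _
      rw [← sum_filter, sum_const, nsmul_eq_mul]
      have h3 : (((univ.filter (fun i : Fin d => i.val < m)).filter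
          (fun i => i ∈ Rel T (r + 1))).card : ℝ) ≤ 64 * 2 ^ (T + 1) * 16 ^ (r + 1) := by
        refine le_trans ?_ (hRel T (r + 1))
        have h3' : ((univ.filter (fun i : Fin d => i.val < m)).filter
            (fun i => i ∈ Rel T (r + 1))).card ≤ (Rel T (r + 1)).card := by
          apply card_le_card
          intro i hi
          exact (mem_filter.mp hi).2
        exact_mod_cast h3'
      calc _ ≤ (64 * 2 ^ (T + 1) * 16 ^ (r + 1)) * WW r :=
            mul_le_mul_of_nonneg_right h3 (WW_pos r).le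
        _ = _ := by ring
    refine (sum_le_sum h2).trans ?_
    rw [← sum_mul]
    have hW0 := WW_pos r
    have hB := BB_pos r
    have h4 := mul_le_mul_of_nonneg_right (sum_T M r) (by positivity : (0 : ℝ) ≤ 16 * WW r)
    refine h4.trans ?_
    have h5 : 256 * 16 ^ r * 2 ^ M / 2 ^ (2 ^ r) * (16 * WW r)
        = 4096 * 16 ^ r * 2 ^ M / (WW r * BB r) := by
      rw [← BB_sq r, ← WW_sq r]
      field_simp
      ring
    rw [h5, div_le_iff₀ (by positivity)]
    have h6 := BB_lower r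
    have h7 : (16 : ℝ) ^ r = 32 ^ r * (1 / 2) ^ r := by
      rw [← mul_pow]; norm_num
    rw [h7]
    have h8 : (0 : ℝ) ≤ (1 / 2) ^ r := by positivity
    have h9 : 1 ≤ WW r * e0 :=
      hWe.trans (mul_le_mul_of_nonneg_right (WW_mono hr0) he0pos.le)
    calc 4096 * (32 ^ r * (1 / 2) ^ r) * 2 ^ M
        = 4096 * (1 / 2 : ℝ) ^ r * (32 ^ r * 2 ^ M) := by ring
      _ ≤ 4096 * (1 / 2 : ℝ) ^ r * ((122880 * BB r) * m) := by
          apply mul_le_mul_of_nonneg_left _ (by positivity)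
          exact mul_le_mul h6 hm1 (by positivity) (by positivity)
      _ = (503316480 * (1 / 2) ^ r * BB r * m) * 1 := by ring
      _ ≤ (503316480 * (1 / 2) ^ r * BB r * m) * (WW r * e0) :=
          mul_le_mul_of_nonneg_left h9 (by positivity)
      _ = 503316480 * (1 / 2) ^ r * (e0 * m) * (WW r * BB r) := by ring
  have hgeo : ∑ r ∈ (range (M + 1)).filter (fun r => p0 ≤ r),
      503316480 * (1 / 2 : ℝ) ^ r * (e0 * (m : ℝ)) ≤ 1006632960 * e0 * m := by
    have h2 : ∀ n : ℕ, ∑ r ∈ range n, (503316480 * (1 / 2 : ℝ) ^ r * (e0 * (m : ℝ)))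
        = 1006632960 * (1 - (1 / 2) ^ n) * (e0 * m) := by
      intro n
      induction n with
      | zero => simp
      | succ n ih => rw [sum_range_succ, ih]; ring
    have h3 : ∑ r ∈ (range (M + 1)).filter (fun r => p0 ≤ r),
        503316480 * (1 / 2 : ℝ) ^ r * (e0 * (m : ℝ)) ≤
        ∑ r ∈ range (M + 1), 503316480 * (1 / 2 : ℝ) ^ r * (e0 * (m : ℝ)) :=
      sum_le_sum_of_subset_of_nonneg (filter_subset _ _) fun _ _ _ => by positivity
    refine h3.trans ?_
    rw [h2]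
    have h4 : (0 : ℝ) ≤ (1 / 2) ^ (M + 1) * (e0 * m) := by positivity
    nlinarith
  exact hswap.trans hgeo

end K19Kom2
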