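import Pool.Agent.K1H19.Kom2.Process
import Pool.Agent.K1H19.Kom2.Acc3
import Pool.Agent.K1H33.Kom.Kom2_WHIT2
import Pool.Agent.K1H33.Kom.Kom2_FIT
import Pool.Agent.K1H66.KR.Kom2_GOOD
import Pool.Agent.K1H58.Kom_VTX

/-!
# The prefix form, for all sizes of the entries
-/

namespace K19Kom2

open Finset K19Kom Pool.Agent.K1H30.KomA Pool.Agent.K1H30.KomB

theorem G4_mono {u U : ℝ} (hu : 0 ≤ u) (hU : u ≤ |U|) : G4 u ≤ G4 U := by
  unfold G4
  have h := key_mono hu hU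
  have h3 : U ^ 4 = |U| ^ 4 := by
    have : |U| ^ 4 = (|U| ^ 2) ^ 2 := by ring
    rw [this, sq_abs]; ring
  rw [h3, abs_of_nonneg hu]
  exact h

theorem G2_mono {t u U : ℝ} (ht : 1 ≤ t) (hu : 0 ≤ u) (hU : u ≤ |U|) : G2 t u ≤ G2 t U := by
  have h1 : 0 ≤ Real.log t := Real.log_nonneg ht
  have h2 := key_mono2 hu hU
  have e : ∀ w : ℝ, G2 t w
      = (1 / (1 + Real.log t) ^ 3) * (|w| ^ 2 / (1 + Real.log (1 + |w|)) ^ 2) := by
    intro w
    unfold G2
    rw [sq_abs]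
    field_simp
  rw [e, e, abs_of_nonneg hu]
  exact mul_le_mul_of_nonneg_left h2 (by positivity)

theorem G3_mono {t u U : ℝ} (ht : 1 ≤ t) (hu : 0 ≤ u) (hU : u ≤ |U|) : G3 t u ≤ G3 t U := by
  unfold G3
  refine max_le_max (G4_mono (by positivity) ?_) (G2_mono ht hu hU)
  rw [abs_div, abs_of_nonneg (Real.sqrt_nonneg t)]
  exact div_le_div_of_nonneg_right hU (Real.sqrt_nonneg t)

/-- The constant of the exponent. -/
noncomputable def c3 (C1 : ℝ) : ℝ := Real.log 2 / 8 / (C1 ^ 4 * (260 ^ 4 * 10 ^ 4 * 64))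

theorem c3_pos {C1 : ℝ} (h1 : 1 ≤ C1) : 0 < c3 C1 := by
  unfold c3
  have := log2_ge
  positivity

theorem c3_le {C1 : ℝ} (h1 : 1 ≤ C1) : c3 C1 ≤ Real.log 2 / 4 := by
  unfold c3
  have h2 := log2_ge
  have hC2 : (1 : ℝ) ≤ C1 ^ 4 := one_le_pow₀ h1
  rw [div_le_iff₀ (by positivity)]
  nlinarith

theorem G3_le {C1 t : ℝ} (h1 : 1 ≤ C1) (ht : 1 ≤ t) (p : ℕ) {u : ℝ}
    (hu : |u| ≤ 2 * C1 * (hp p * lamt t)) (hu2 : |u| ≤ C1 * (Real.sqrt t * bd p)) :
    G3 t u ≤ C1 ^ 4 * (260 ^ 4 * 10 ^ 4 * 64) * 2 ^ p := by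
  have hst : 0 < Real.sqrt t := Real.sqrt_pos.2 (by linarith)
  refine max_le ?_ ?_
  · have h2 := growth h1 p
    have h3 : G4 (u / Real.sqrt t) ≤ G4 (C1 * bd p) := by
      have h4 : |u / Real.sqrt t| ≤ C1 * bd p := by
        rw [abs_div, abs_of_nonneg hst.le, div_le_iff₀ hst]
        linarith
      have h5 := G4_mono (u := |u / Real.sqrt t|) (U := C1 * bd p) (abs_nonneg _)
        (h4.trans (le_abs_self _))
      refine le_trans (le_of_eq ?_) h5
      unfold G4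
      have h6 : |u / Real.sqrt t| ^ 4 = (|u / Real.sqrt t| ^ 2) ^ 2 := by ring
      rw [h6, sq_abs, abs_abs]
      congr 1
      ring
    refine h3.trans (le_trans (le_of_eq ?_) h2)
    unfold G4
    rw [abs_of_nonneg (mul_nonneg (by linarith : (0:ℝ) ≤ C1) (K19Kom.bd_nonneg p))]
  · refine (G2_le h1 ht p hu).trans ?_
    have hC2 : (1 : ℝ) ≤ C1 ^ 2 := one_le_pow₀ h1
    have h2 : (0 : ℝ) < 2 ^ p := by positivity
    apply mul_le_mul_of_nonneg_right _ h2.le
    calc C1 ^ 2 * 640000 = C1 ^ 2 * 1 * 640000 := by ring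
      _ ≤ C1 ^ 2 * C1 ^ 2 * (260 ^ 4 * 10 ^ 4 * 64) := by
          apply mul_le_mul _ (by norm_num) (by norm_num) (by positivity)
          exact mul_le_mul_of_nonneg_left hC2 (by positivity)
      _ = _ := by ring

theorem Phi3_mono {c c' b t u : ℝ} (hc : c ≤ c') (ht : 1 ≤ t) : Phi3 c b t u ≤ Phi3 c' b t u := by
  unfold Phi3
  split_ifs
  · exact le_rfl
  · apply Real.exp_le_exp.mpr
    apply mul_le_mul_of_nonneg_right hc
    refine le_max_of_le_right ?_
    unfold G2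
    have h1 : 0 ≤ Real.log t := Real.log_nonneg ht
    positivity

theorem final3 : ∃ c K C : ℝ, 0 < c ∧ 0 < K ∧ 0 < C ∧ PrefixForm3 c K C := by
  have hW := H33.t_WHIT2
  obtain ⟨C, hC, hC1⟩ := Pool.Agent.K1H52.Kom2.t_ACCB1 hW
  obtain ⟨c0, hc0, hfit0⟩ := H33.t_FIT
  set C1 : ℝ := max C 60 with hC1d
  have hC60 : (60 : ℝ) ≤ C1 := le_max_right _ _
  have hCC : C ≤ C1 := le_max_left _ _
  have h1 : 1 ≤ C1 := by linarith
  have hc3 := c3_pos h1
  refine ⟨min (c3 C1) (c3 C1 * c0), 1006632960, C1, by positivity, by norm_num, by linarith, ?_⟩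
  intro d n a x0 t ht a1 col hx0
  obtain ⟨p0, hfit, hp0⟩ := hfit0 t ht
  obtain ⟨y, Rel, hy, hR, hb⟩ := proc_of hW t_GOOD2 Pool.Agent.K1H58.Kom.t_VTX d n a x0 t p0 ht
    a1 col hx0
  have hst : 1 ≤ Real.sqrt t := Real.one_le_sqrt.2 ht
  have hlam := lamt_ge ht
  refine ⟨y, hy, fun m hm => ?_⟩
  have h8 := sum_gen hW (c3_le h1) Rel hR
    (fun i => Phi3 (c3 C1) (C1 * Real.sqrt t) t (∑ j, a i j * (y j - x0 j)))
    (fun i hrel => by
      have h2 := (hb i).trans ((add_le_add_right (paid3_le t p0 Rel i 0) 128).trans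
        (hC1 t p0 ht hfit d Rel i p0 le_rfl hrel))
      rw [if_pos rfl, add_zero] at h2
      have h3 : |∑ j, a i j * (y j - x0 j)| ≤ C1 * Real.sqrt t :=
        h2.trans (mul_le_mul_of_nonneg_right hCC (by linarith))
      show Phi3 (c3 C1) (C1 * Real.sqrt t) t (∑ j, a i j * (y j - x0 j)) ≤ 0
      unfold Phi3
      rw [if_pos h3])
    (fun i r hr hrel => by
      have h2 := (hb i).trans ((add_le_add_right (paid3_le t p0 Rel i 0) 128).trans
        (hC1 t p0 ht hfit d Rel i (r + 1) (by omega) hrel))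
      rw [if_neg (by omega)] at h2
      have h3 : Real.sqrt t ≤ hp (r + 1) * lamt t := by
        refine hfit.2.le.trans ?_
        exact mul_le_mul_of_nonneg_right (Pool.Agent.K1H30.KomB.hp_mono (by omega)) (by linarith)
      have h5 : 0 ≤ hp (r + 1) * lamt t :=
        mul_nonneg (Pool.Agent.K1H30.KomB.hp_pos _).le (by linarith)
      have h4 : |∑ j, a i j * (y j - x0 j)| ≤ 2 * C1 * (hp (r + 1) * lamt t) := by
        calc |∑ j, a i j * (y j - x0 j)| ≤ C * (Real.sqrt t + hp (r + 1) * lamt t) := h2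
          _ ≤ C * (hp (r + 1) * lamt t + hp (r + 1) * lamt t) :=
              mul_le_mul_of_nonneg_left (by linarith) hC.le
          _ = C * (2 * (hp (r + 1) * lamt t)) := by ring
          _ ≤ C1 * (2 * (hp (r + 1) * lamt t)) := mul_le_mul_of_nonneg_right hCC (by linarith)
          _ = _ := by ring
      have h6 : |∑ j, a i j * (y j - x0 j)| ≤ C1 * (Real.sqrt t * bd (r + 1)) := by
        refine ((hb i).trans (acc3 hW ht Rel i (r + 1) hrel)).trans ?_
        exact mul_le_mul_of_nonneg_right hC60 (mul_nonneg (by linarith) (K19Kom.bd_nonneg _))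
      show Phi3 (c3 C1) (C1 * Real.sqrt t) t (∑ j, a i j * (y j - x0 j)) ≤ WW r
      unfold Phi3
      split_ifs
      · exact (WW_pos r).le
      · unfold WW
        apply Real.exp_le_exp.mpr
        refine (mul_le_mul_of_nonneg_left (G3_le h1 ht (r + 1) h4 h6) hc3.le).trans (le_of_eq ?_)
        unfold c3
        have h5 : C1 ^ 4 ≠ 0 := by positivity
        field_simp
        ring) m hm
  refine (Finset.sum_le_sum fun i _ => Phi3_mono (min_le_left _ _) ht).trans (h8.trans ?_)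
  apply mul_le_mul_of_nonneg_right _ (Nat.cast_nonneg _)
  apply mul_le_mul_of_nonneg_left _ (by norm_num)
  apply Real.exp_le_exp.mpr
  have h9 : 0 ≤ Real.log t := Real.log_nonneg ht
  have h10 : 0 ≤ t / (1 + Real.log t) ^ 5 := by positivity
  have h11 : min (c3 C1) (c3 C1 * c0) * (t / (1 + Real.log t) ^ 5) ≤ c3 C1 * 2 ^ p0 := by
    calc min (c3 C1) (c3 C1 * c0) * (t / (1 + Real.log t) ^ 5)
        ≤ (c3 C1 * c0) * (t / (1 + Real.log t) ^ 5) :=
          mul_le_mul_of_nonneg_right (min_le_right _ _) h10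
      _ = c3 C1 * (c0 * (t / (1 + Real.log t) ^ 5)) := by ring
      _ ≤ c3 C1 * 2 ^ p0 := mul_le_mul_of_nonneg_left hp0 hc3.le
  linarith

end K19Kom2
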