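import Pool.Agent.K1H61.Kom_MM

/-!
# From prefixes to random signings, general growth functions
-/

namespace K19Kom2

open Finset K19Kom

theorem mm_gen (Φ : ℝ → ℝ) (K : ℝ) (d n : ℕ) (a : Fin d → Fin n → ℝ) (x0 : Fin n → ℝ)
    (hP : ∀ σ : Equiv.Perm (Fin d), ∃ y : Fin n → ℝ, (∀ j, y j = 1 ∨ y j = -1) ∧
      ∀ m : ℕ, m ≤ d → ∑ i ∈ Finset.univ.filter (fun i : Fin d => i.val < m),
        Φ (∑ j, a (σ i) j * (y j - x0 j)) ≤ K * m) :
    ∃ w : (Fin n → Bool) → ℝ, (∀ s, 0 ≤ w s) ∧ ∑ s, w s = 1 ∧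
      ∀ i : Fin d, ∑ s, w s * Φ (∑ j, a i j * ((if s j then (1 : ℝ) else -1) - x0 j)) ≤ K := by
  classical
  set zs : (Fin n → Bool) → (Fin d → ℝ) := fun s i =>
    Φ (∑ j, a i j * ((if s j then (1 : ℝ) else -1) - x0 j)) with hzs
  set Z : Finset (Fin d → ℝ) := Finset.univ.image zs with hZ
  have hmm : ∀ p : Fin d → ℝ, (∀ j, 0 ≤ p j) → ∃ z ∈ Z, ∑ j, p j * z j ≤ K * ∑ j, p j := by
    intro p hp
    let σ : Equiv.Perm (Fin d) := Tuple.sort (fun j => -p j)
    have hσ : Antitone (p ∘ σ) := by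
      have h7 : Monotone ((fun j => -p j) ∘ σ) := Tuple.monotone_sort _
      intro i j hij
      have := h7 hij
      simp only [Function.comp_apply] at this ⊢
      linarith
    obtain ⟨y, hy, hym⟩ := hP σ
    have hys : ∀ j, (if (decide (y j = 1)) = true then (1 : ℝ) else -1) = y j := by
      intro j
      rcases hy j with h | h
      · rw [h]; simp
      · rw [h]; norm_num
    refine ⟨zs fun j => decide (y j = 1), Finset.mem_image_of_mem _ (Finset.mem_univ _), ?_⟩
    have h1 := parts K d (p ∘ σ) (fun i => zs (fun j => decide (y j = 1)) (σ i)) hσ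
      (fun i => hp _) (by
      intro m hm
      have h2 := hym m hm
      refine le_trans (le_of_eq ?_) h2
      refine Finset.sum_congr rfl fun i _ => ?_
      simp only [hzs]
      congr 1
      refine Finset.sum_congr rfl fun j _ => ?_
      rw [hys])
    have e1 : ∑ i, (p ∘ σ) i * zs (fun j => decide (y j = 1)) (σ i) =
        ∑ i, p i * zs (fun j => decide (y j = 1)) i :=
      Equiv.sum_comp σ fun i => p i * zs (fun j => decide (y j = 1)) i
    have e2 : ∑ i, (p ∘ σ) i = ∑ i, p i := Equiv.sum_comp σ p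
    rw [e1, e2] at h1
    exact h1
  obtain ⟨w, hw0, hw1, hw2⟩ := H167FK.minimax Z K hmm
  have hr : ∀ z : Fin d → ℝ, ∃ s : Fin n → Bool, z ∈ Z → zs s = z := by
    intro z
    by_cases hz : z ∈ Z
    · obtain ⟨s, -, h⟩ := Finset.mem_image.1 hz
      exact ⟨s, fun _ => h⟩
    · exact ⟨fun _ => true, fun h => absurd h hz⟩
  choose r hr using hr
  set w' : (Fin n → Bool) → ℝ := fun s => if s = r (zs s) then w (zs s) else 0 with hw'
  have key : ∀ g : (Fin d → ℝ) → ℝ, ∑ s, w' s * g (zs s) = ∑ z ∈ Z, w z * g z := by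
    intro g
    rw [← Finset.sum_fiberwise_of_maps_to (s := Finset.univ) (t := Z) (g := zs)
      (fun s _ => Finset.mem_image_of_mem _ (Finset.mem_univ _))]
    refine Finset.sum_congr rfl fun z hz => ?_
    rw [Finset.sum_eq_single_of_mem (r z)]
    · simp only [hw', hr z hz, if_true]
    · rw [Finset.mem_filter]
      exact ⟨Finset.mem_univ _, hr z hz⟩
    · intro s hs hne
      rw [Finset.mem_filter] at hs
      have h1 : w' s = 0 := by
        simp only [hw', hs.2]
        exact if_neg hne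
      rw [h1, zero_mul]
  refine ⟨w', ?_, ?_, ?_⟩
  · intro s
    simp only [hw']
    split_ifs
    · exact hw0 _ (Finset.mem_image_of_mem _ (Finset.mem_univ _))
    · exact le_rfl
  · have h1 := key fun _ => 1
    simp only [mul_one] at h1
    rw [h1]
    exact hw1
  · intro i
    have h1 := key fun z => z i
    have h2 := hw2 i
    rw [← h1] at h2
    exact h2

end K19Kom2
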