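import Pool.Agent.K1H19.Kom2.Stm

/-!
# One tail bound for all sizes of the entries: interface
-/

namespace K19Kom2

open Finset K19Kom

/-- Cost of a block of level `q` for a row with large energy. -/
noncomputable def Bm (t : ℝ) (q : ℕ) : ℝ := min (Bc t q) (260 * Real.sqrt (hp q) * Real.sqrt t)

/-- The cost that a row has paid. -/
noncomputable def paid3 {d : ℕ} (t : ℝ) (p0 : ℕ) (Rel : ℕ → ℕ → Finset (Fin d)) (i : Fin d)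
    (T0 : ℕ) : ℝ := by
  classical
  exact ∑ T ∈ (Finset.Ico T0 (stt p0 i)).filter (fun T => 2 ^ lvl2 p0 (stt p0 i) T ∣ T + 1),
    (if i ∈ Rel T (lvl2 p0 (stt p0 i) T) then Bm t (lvl2 p0 (stt p0 i) T)
      else Sc t (lvl2 p0 (stt p0 i) T))

/-- PROC3: the process. -/
def S_PROC3 : Prop :=
  ∀ (d n : ℕ) (a : Fin d → Fin n → ℝ) (x0 : Fin n → ℝ) (t : ℝ) (p0 : ℕ), 1 ≤ t →
    (∀ i j, |a i j| ≤ 1) → (∀ j, ∑ i, a i j ^ 2 ≤ t) → (∀ j, |x0 j| ≤ 1) →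
    ∃ (y : Fin n → ℝ) (Rel : ℕ → ℕ → Finset (Fin d)),
      (∀ j, y j = 1 ∨ y j = -1) ∧
      (∀ T p, ((Rel T p).card : ℝ) ≤ 64 * 2 ^ (T + 1) * 16 ^ p) ∧
      ∀ i : Fin d, |∑ j, a i j * (y j - x0 j)| ≤ 128 + paid3 t p0 Rel i 0

theorem paid3_le {d : ℕ} (t : ℝ) (p0 : ℕ) (Rel : ℕ → ℕ → Finset (Fin d)) (i : Fin d) (T0 : ℕ) :
    paid3 t p0 Rel i T0 ≤ paid2 t p0 Rel i T0 := by
  unfold paid3 paid2
  refine Finset.sum_le_sum fun T _ => ?_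
  split_ifs
  · exact min_le_left _ _
  · exact le_rfl

/-- `u ^ 4 / (1 + log (1 + |u|)) ^ 2`. -/
noncomputable def G4 (u : ℝ) : ℝ := u ^ 4 / (1 + Real.log (1 + |u|)) ^ 2

/-- The exponent. -/
noncomputable def G3 (t u : ℝ) : ℝ := max (G4 (u / Real.sqrt t)) (G2 t u)

/-- `0` for `|u| ≤ b`, else `exp (c * G3 t u)`. -/
noncomputable def Phi3 (c b t u : ℝ) : ℝ := by
  classical
  exact if |u| ≤ b then 0 else Real.exp (c * G3 t u)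

/-- Prefix form. -/
def PrefixForm3 (c K C : ℝ) : Prop :=
  ∀ (d n : ℕ) (a : Fin d → Fin n → ℝ) (x0 : Fin n → ℝ) (t : ℝ), 1 ≤ t →
    (∀ i j, |a i j| ≤ 1) → (∀ j, ∑ i, a i j ^ 2 ≤ t) → (∀ j, |x0 j| ≤ 1) →
    ∃ y : Fin n → ℝ, (∀ j, y j = 1 ∨ y j = -1) ∧
      ∀ m : ℕ, m ≤ d → ∑ i ∈ Finset.univ.filter (fun i : Fin d => i.val < m),
        Phi3 c (C * Real.sqrt t) t (∑ j, a i j * (y j - x0 j))
          ≤ K * Real.exp (-(c * (t / (1 + Real.log t) ^ 5))) * m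

end K19Kom2
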