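import Pool.Agent.K1H19.Kom.Stm

/-!
# Random signings for vectors with small entries: interface of the elementary pieces
-/

namespace K19Kom2

open Finset K19Kom

/-- `(1 + log t) ^ (3/2)`. -/
noncomputable def lamt (t : ℝ) : ℝ := (1 + Real.log t) ^ (3 / 2 : ℝ)

/-- Cost of a block of level `q` for a row with large energy. -/
noncomputable def Bc (t : ℝ) (q : ℕ) : ℝ := 80 * Real.sqrt t + 753 * hp q * lamt t

/-- Cost of a block of level `q` for a row with small energy. -/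
noncomputable def Sc (t : ℝ) (q : ℕ) : ℝ := 260 * Real.sqrt (hp q) * Real.sqrt t / 2 ^ q

/-- Level with minimal level `p0`. -/
def lvl2 (p0 S T : ℕ) : ℕ := max p0 (lvl S T)

/-- Starting time of a row, a multiple of `2 ^ p0`. -/
def stt {d : ℕ} (p0 : ℕ) (i : Fin d) : ℕ := (scl i / 2 ^ p0 + 1) * 2 ^ p0

/-- WHIT2: properties of the level function with minimal level. -/
def S_WHIT2 : Prop := ∀ p0 k : ℕ,
  (∀ T : ℕ, T < k * 2 ^ p0 → p0 < lvl2 p0 (k * 2 ^ p0) T →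
    T + 2 ^ lvl2 p0 (k * 2 ^ p0) T ≤ k * 2 ^ p0) ∧
  (∀ T : ℕ, T < k * 2 ^ p0 → k * 2 ^ p0 < T + 4 * 2 ^ lvl2 p0 (k * 2 ^ p0) T) ∧
  (∀ T p : ℕ, ¬ (2 ^ p ∣ T + 1) →
    ((T < k * 2 ^ p0 ∧ lvl2 p0 (k * 2 ^ p0) T = p) ↔
      (T + 1 < k * 2 ^ p0 ∧ lvl2 p0 (k * 2 ^ p0) (T + 1) = p)))

/-- The cost that a row has paid: one term for each block of times. -/
noncomputable def paid2 {d : ℕ} (t : ℝ) (p0 : ℕ) (Rel : ℕ → ℕ → Finset (Fin d)) (i : Fin d)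
    (T0 : ℕ) : ℝ := by
  classical
  exact ∑ T ∈ (Finset.Ico T0 (stt p0 i)).filter (fun T => 2 ^ lvl2 p0 (stt p0 i) T ∣ T + 1),
    (if i ∈ Rel T (lvl2 p0 (stt p0 i) T) then Bc t (lvl2 p0 (stt p0 i) T)
      else Sc t (lvl2 p0 (stt p0 i) T))

/-- PROC2: the process. -/
def S_PROC2 : Prop :=
  ∀ (d n : ℕ) (a : Fin d → Fin n → ℝ) (x0 : Fin n → ℝ) (t : ℝ) (p0 : ℕ), 1 ≤ t →
    (∀ i j, |a i j| ≤ 1) → (∀ j, ∑ i, a i j ^ 2 ≤ t) → (∀ j, |x0 j| ≤ 1) →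
    ∃ (y : Fin n → ℝ) (Rel : ℕ → ℕ → Finset (Fin d)),
      (∀ j, y j = 1 ∨ y j = -1) ∧
      (∀ T p, ((Rel T p).card : ℝ) ≤ 64 * 2 ^ (T + 1) * 16 ^ p) ∧
      ∀ i : Fin d, |∑ j, a i j * (y j - x0 j)| ≤ 128 + paid2 t p0 Rel i 0

/-- The choice of the minimal level. -/
def Fit (t : ℝ) (p0 : ℕ) : Prop :=
  (p0 = 0 ∨ hp p0 * lamt t ≤ Real.sqrt t) ∧ Real.sqrt t < hp (p0 + 1) * lamt t

/-- FIT: the minimal level exists, and `2 ^ p0` is large. -/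
def S_FIT : Prop := ∃ c0 : ℝ, 0 < c0 ∧ ∀ t : ℝ, 1 ≤ t →
  ∃ p0 : ℕ, Fit t p0 ∧ c0 * (t / (1 + Real.log t) ^ 5) ≤ 2 ^ p0

/-- ACCB1: cost of one row whose relevant levels are at most `P`. -/
def S_ACCB1 : Prop := S_WHIT2 →
  ∃ C : ℝ, 0 < C ∧ ∀ (t : ℝ) (p0 : ℕ), 1 ≤ t → Fit t p0 →
  ∀ (d : ℕ) (Rel : ℕ → ℕ → Finset (Fin d)) (i : Fin d) (P : ℕ), p0 ≤ P →
    (∀ T < stt p0 i, i ∈ Rel T (lvl2 p0 (stt p0 i) T) → lvl2 p0 (stt p0 i) T ≤ P) →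
    128 + paid2 t p0 Rel i 0 ≤ C * (Real.sqrt t + (if P = p0 then 0 else hp P * lamt t))

/-- The tail function for small entries, as a function of the unnormalised row sum. -/
noncomputable def G2 (t u : ℝ) : ℝ :=
  u ^ 2 / ((1 + Real.log t) ^ 3 * (1 + Real.log (1 + |u|)) ^ 2)

/-- `0` for `|u| ≤ b`, else `exp (c * G2 t u)`. -/
noncomputable def Phi (c b t u : ℝ) : ℝ := by
  classical
  exact if |u| ≤ b then 0 else Real.exp (c * G2 t u)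

/-- ACCB2: the sum over the first `m` rows. -/
def S_ACCB2 : Prop := S_WHIT2 →
  ∀ C : ℝ, 0 < C → ∃ c K : ℝ, 0 < c ∧ 0 < K ∧
  ∀ (t : ℝ) (p0 : ℕ), 1 ≤ t → Fit t p0 →
  ∀ (d : ℕ) (Rel : ℕ → ℕ → Finset (Fin d)) (x : Fin d → ℝ),
    (∀ T p, ((Rel T p).card : ℝ) ≤ 64 * 2 ^ (T + 1) * 16 ^ p) →
    (∀ (i : Fin d) (P : ℕ), p0 ≤ P →
      (∀ T < stt p0 i, i ∈ Rel T (lvl2 p0 (stt p0 i) T) → lvl2 p0 (stt p0 i) T ≤ P) →
      |x i| ≤ C * (Real.sqrt t + (if P = p0 then 0 else hp P * lamt t))) →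
    ∀ m : ℕ, m ≤ d → ∑ i ∈ Finset.univ.filter (fun i : Fin d => i.val < m),
      Phi c (C * Real.sqrt t) t (x i) ≤ K * Real.exp (-(c * 2 ^ p0)) * m

/-- Prefix form for small entries: most rows are `O(√t)`. -/
def PrefixForm2 (c K C : ℝ) : Prop :=
  ∀ (d n : ℕ) (a : Fin d → Fin n → ℝ) (x0 : Fin n → ℝ) (t : ℝ), 1 ≤ t →
    (∀ i j, |a i j| ≤ 1) → (∀ j, ∑ i, a i j ^ 2 ≤ t) → (∀ j, |x0 j| ≤ 1) →
    ∃ y : Fin n → ℝ, (∀ j, y j = 1 ∨ y j = -1) ∧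
      ∀ m : ℕ, m ≤ d → ∑ i ∈ Finset.univ.filter (fun i : Fin d => i.val < m),
        Phi c (C * Real.sqrt t) t (∑ j, a i j * (y j - x0 j))
          ≤ K * Real.exp (-(c * (t / (1 + Real.log t) ^ 5))) * m

/-- Final statement for small entries. -/
def S_FINAL2 : Prop := ∃ c K C : ℝ, 0 < c ∧ 0 < K ∧ 0 < C ∧ PrefixForm2 c K C

theorem Phi_mono {c c' b t u : ℝ} (hc : c ≤ c') (ht : 1 ≤ t) : Phi c b t u ≤ Phi c' b t u := by
  unfold Phi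
  split_ifs
  · exact le_rfl
  · apply Real.exp_le_exp.mpr
    apply mul_le_mul_of_nonneg_right hc
    unfold G2
    have h1 : 0 ≤ Real.log t := Real.log_nonneg ht
    positivity

theorem assembly2 (h1 : S_WHIT2) (h2 : S_PROC2) (h3 : S_ACCB1) (h4 : S_ACCB2) (h5 : S_FIT) :
    S_FINAL2 := by
  obtain ⟨C, hC, hC1⟩ := h3 h1
  obtain ⟨c, K, hc, hK, h6⟩ := h4 h1 C hC
  obtain ⟨c0, hc0, h7⟩ := h5
  refine ⟨min c (c * c0), K, C, by positivity, hK, hC, ?_⟩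
  intro d n a x0 t ht ha1 ha hx0
  obtain ⟨p0, hfit, hp0⟩ := h7 t ht
  obtain ⟨y, Rel, hy, hR, hb⟩ := h2 d n a x0 t p0 ht ha1 ha hx0
  refine ⟨y, hy, fun m hm => ?_⟩
  have h8 := h6 t p0 ht hfit d Rel (fun i => ∑ j, a i j * (y j - x0 j)) hR
    (fun i P hP1 hP => (hb i).trans (hC1 t p0 ht hfit d Rel i P hP1 hP)) m hm
  refine (Finset.sum_le_sum fun i _ => Phi_mono (min_le_left _ _) ht).trans (h8.trans ?_)
  apply mul_le_mul_of_nonneg_right _ (Nat.cast_nonneg _)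
  apply mul_le_mul_of_nonneg_left _ hK.le
  apply Real.exp_le_exp.mpr
  have h9 : 0 ≤ Real.log t := Real.log_nonneg ht
  have h10 : 0 ≤ t / (1 + Real.log t) ^ 5 := by positivity
  have h11 : min c (c * c0) * (t / (1 + Real.log t) ^ 5) ≤ c * 2 ^ p0 := by
    calc min c (c * c0) * (t / (1 + Real.log t) ^ 5)
        ≤ (c * c0) * (t / (1 + Real.log t) ^ 5) :=
          mul_le_mul_of_nonneg_right (min_le_right _ _) h10
      _ = c * (c0 * (t / (1 + Real.log t) ^ 5)) := by ring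
      _ ≤ c * 2 ^ p0 := mul_le_mul_of_nonneg_left hp0 hc.le
  linarith

end K19Kom2
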