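import Pool.Agent.K1H19.Kom.Run
import Pool.Agent.K1H19.Kom.RowEq
import Pool.Agent.K1H19.Kom2.Stm

/-!
# The system of a window, general column energy and minimal level
-/

namespace K19Kom2

open Finset Real H167BJ H167BK H167KL K19Kom

/-- Global data. -/
structure Ctx (d n : ℕ) where
  a : Fin d → Fin n → ℝ
  t : ℝ
  ht : 1 ≤ t
  a1 : ∀ i j, |a i j| ≤ 1
  col : ∀ j, ∑ i, a i j ^ 2 ≤ t
  x0 : Fin n → ℝ
  p0 : ℕ
  L : ℕ
  Pm : ℕ
  hPL : Pm ≤ L
  hp0 : p0 < Pm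
  hsc : ∀ i : Fin d, stt p0 i < Pm
  hL : ∀ i v q, q < Pm → a i v ≠ 0 → θk t (hp q) L < |a i v|

variable {d n : ℕ}

/-- The level of row `i` at time `T` (level `0` for frozen rows). -/
def lv (p0 T : ℕ) (i : Fin d) : ℕ := if T < stt p0 i then lvl2 p0 (stt p0 i) T else 0

/-- Data of a window: base points of the levels, starting point, starting energy levels. -/
structure Dat (C : Ctx d n) (T : ℕ) where
  z : ℕ → Fin n → ℝ
  hz : ∀ q j, |z q j| ≤ 1
  xs : Fin n → ℝ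
  l0 : Fin d → ℕ
  hl0 : ∀ i, T < stt C.p0 i → l0 i = 0 ∨
    16 ^ l0 i * ∑ v, (if |z (lv C.p0 T i) v| < 1 then C.a i v else 0) ^ 2 ≤ 10 * C.t
  hl0L : ∀ i, T < stt C.p0 i → l0 i ≤ C.L

theorem lv_lt (C : Ctx d n) (T : ℕ) (i : Fin d) : lv C.p0 T i < C.Pm := by
  unfold lv
  split_ifs
  · unfold lvl2
    exact max_lt C.hp0 ((lvl_le _ _).trans_lt (C.hsc i))
  · exact lt_of_le_of_lt (Nat.zero_le _) C.hp0

namespace Dat

variable {C : Ctx d n} {T : ℕ} (D : Dat C T)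

/-- Restricted entries. -/
noncomputable def ar (i : Fin d) (v : Fin n) : ℝ := if |D.z (lv C.p0 T i) v| < 1 then C.a i v else 0

/-- Parameter of a row. -/
noncomputable def hh (_ : Dat C T) (i : Fin d) : ℝ := hp (lv C.p0 T i)

theorem hh_ge (i : Fin d) : 30 ≤ D.hh i := by
  have := hp_ge (lv C.p0 T i)
  unfold hh
  linarith

theorem ar_abs (i : Fin d) (v : Fin n) : |D.ar i v| ≤ |C.a i v| := by
  unfold ar
  split_ifs
  · exact le_rfl
  · rw [abs_zero]; exact abs_nonneg _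

theorem ar_sq (i : Fin d) (v : Fin n) : D.ar i v ^ 2 ≤ C.a i v ^ 2 := by
  rw [← sq_abs, ← sq_abs (C.a i v)]
  exact pow_le_pow_left₀ (abs_nonneg _) (D.ar_abs i v) 2

/-- The system of a window. -/
noncomputable def sys : K19Kom.Sys (Fin d) (Fin n) (ℕ × Fin n) where
  a := D.ar
  I0 := Finset.univ.filter (fun i => stt C.p0 i ≤ T)
  I1 := Finset.univ.filter (fun i => T < stt C.p0 i)
  t := C.t
  g0 := 0
  ht := C.ht
  hg0 := le_rfl
  a1 := fun i j => (D.ar_abs i j).trans (C.a1 i j)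
  col := fun j => (Finset.sum_le_sum fun i _ => D.ar_sq i j).trans (C.col j)
  x0 := fun i => D.z (lv C.p0 T i)
  hx0 := fun i j => D.hz _ j
  xs := D.xs
  θ := fun i => θk C.t (D.hh i)
  D := fun i => dk C.t (D.hh i)
  hθ0 := fun i => θk_pos C.ht (D.hh_ge i)
  hθa := fun i => θk_anti C.ht (D.hh_ge i)
  Yl := fun i => yk C.t (D.hh i)
  hYl := fun i => yk_ge
  lam := fun i => lk C.t (D.hh i)
  hlam := fun i => lk_pos C.ht
  Rb := fun i => rk C.t (D.hh i)
  hRb := fun i k => by unfold rk; positivity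
  g := fun k => exp (-Gk k)
  hg := fun i k => le_of_eq (by rw [gap C.ht])
  hg0' := fun k => exp_pos _
  hθl := fun i => lam_small C.ht (D.hh_ge i)
  hD0 := fun i => dk_nonneg C.ht (D.hh_ge i)
  hθD := fun i => dk_spec C.ht (D.hh_ge i)
  l0 := D.l0
  hl0 := fun i hi => by
    rcases D.hl0 i (Finset.mem_filter.mp hi).2 with h | h
    · exact Or.inl h
    · right
      exact h
  L := C.L
  hl0L := fun i hi => D.hl0L i (Finset.mem_filter.mp hi).2
  hL := fun i v h => by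
    have h1 : D.ar i v = C.a i v := by
      unfold ar at h ⊢
      split_ifs at h ⊢ with h2
      · rfl
      · exact absurd rfl h
    rw [h1] at h ⊢
    exact C.hL i v _ (lv_lt C T i) h
  S := (Finset.range C.Pm ×ˢ Finset.univ).filter (fun τ => |D.z τ.1 τ.2| < 1)
  wt := fun τ => rho T τ.1
  hwt := fun τ _ => rho_pos T τ.1
  b := fun τ i l => if lv C.p0 T i = τ.1 then
    (if |D.ar i τ.2| ≤ θk C.t (D.hh i) l then D.ar i τ.2 else 0) ^ 2 / θk C.t (D.hh i) l ^ 2 else 0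
  hb0 := fun τ _ i l => by
    split_ifs <;> positivity
  hb1 := fun τ _ i l => by
    have h1 := θk_pos (t := C.t) C.ht (D.hh_ge i) l
    split_ifs with h2 h3
    · rw [div_le_one (by positivity), ← sq_abs]
      exact pow_le_pow_left₀ (abs_nonneg _) h3 2
    · rw [div_le_one (by positivity), zero_pow two_ne_zero]; positivity
    · exact zero_le_one
  w := fun i => wk C.t (D.hh i)
  hw := fun i => wk_pos C.ht (D.hh_ge i)
  N := 64 * 2 ^ (T + 1)

theorem b_eq (q : ℕ) (j : Fin n) (i : Fin d) (l : ℕ) :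
    D.sys.b (q, j) i l = if lv C.p0 T i = q then D.sys.sm l i j ^ 2 / θk C.t (D.hh i) l ^ 2 else 0 := by
  rfl

end Dat

/-- GOOD: the estimate for a step in a window. -/
def S_GOOD2 : Prop := ∀ (d n : ℕ) (C : Ctx d n) (T : ℕ) (D : Dat C T) (F : Finset (Fin n))
  (y : Fin n → ℝ), (64 : ℝ) * 2 ^ T < F.card → (∀ q, ∀ v ∈ F, |D.z q v| < 1) →
  (∀ j, |y j| ≤ 1) → D.sys.f F y ≤ 2 * D.sys.N → D.sys.Good F y

/-- BUD: the budget of a row. -/
def S_BUD2 : Prop := ∀ (d n : ℕ) (C : Ctx d n) (T : ℕ) (D : Dat C T) (i : Fin d), T < stt C.p0 i →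
  D.sys.Bd D.sys.L i ≤ if D.l0 i = 0 then Bc C.t (lv C.p0 T i)
    else 260 * Real.sqrt (hp (lv C.p0 T i)) * Real.sqrt C.t * (1 / 2) ^ D.l0 i

end K19Kom2
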