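import Pool.Agent.K1H19.Kom2.Final
import Pool.Agent.K1H19.Kom2.MM

/-!
# Tails
-/

namespace K19Kom2

open Finset K19Kom

theorem Phi_nonneg (c b t u : ℝ) : 0 ≤ Phi3 c b t u := by
  unfold Phi3
  split_ifs
  · exact le_rfl
  · exact (Real.exp_pos _).le

theorem Phi_ge {c b t u U : ℝ} (hc : 0 ≤ c) (ht : 1 ≤ t) (hb : 0 ≤ b) (hu : b ≤ u) (hU : u < |U|) :
    Real.exp (c * G3 t u) ≤ Phi3 c b t U := by
  unfold Phi3
  rw [if_neg (by linarith)]
  apply Real.exp_le_exp.mpr
  exact mul_le_mul_of_nonneg_left (G3_mono ht (hb.trans hu) hU.le) hc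

/-- Markov's inequality for finite weights. -/
theorem markov {S : Type*} [Fintype S] (w : S → ℝ) (hw : ∀ s, 0 ≤ w s) (f : S → ℝ)
    (c b t u E : ℝ) (hc : 0 ≤ c) (ht : 1 ≤ t) (hb : 0 ≤ b) (hu : b ≤ u)
    [DecidablePred fun s => u < |f s|]
    (hE : ∑ s, w s * Phi3 c b t (f s) ≤ E) :
    ∑ s ∈ Finset.univ.filter (fun s => u < |f s|), w s ≤ E * Real.exp (-(c * G3 t u)) := by
  rw [Real.exp_neg, ← div_eq_mul_inv, le_div_iff₀ (Real.exp_pos _), Finset.sum_mul]
  refine le_trans ?_ hE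
  refine (Finset.sum_le_sum fun s hs => ?_).trans
    (Finset.sum_le_sum_of_subset_of_nonneg (Finset.filter_subset _ _)
      (f := fun s => w s * Phi3 c b t (f s))
      fun s _ _ => mul_nonneg (hw s) (Phi_nonneg _ _ _ _))
  exact mul_le_mul_of_nonneg_left (Phi_ge hc ht hb hu (Finset.mem_filter.mp hs).2) (hw s)

/-- Everything in matrix form. -/
theorem matrix : ∃ c K C : ℝ, 0 < c ∧ 0 < K ∧ 0 < C ∧
    ∀ (d n : ℕ) (a : Fin d → Fin n → ℝ) (x0 : Fin n → ℝ) (t : ℝ), 1 ≤ t →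
      (∀ i j, |a i j| ≤ 1) → (∀ j, ∑ i, a i j ^ 2 ≤ t) → (∀ j, |x0 j| ≤ 1) →
      (∃ w : (Fin n → Bool) → ℝ, (∀ s, 0 ≤ w s) ∧ ∑ s, w s = 1 ∧
        ∀ (i : Fin d) (u : ℝ), C * Real.sqrt t ≤ u →
          ∑ s ∈ Finset.univ.filter (fun s : Fin n → Bool =>
            u < |∑ j, a i j * ((if s j then (1 : ℝ) else -1) - x0 j)|), w s
            ≤ K * Real.exp (-(c * (t / (1 + Real.log t) ^ 5))) * Real.exp (-(c * G3 t u))) ∧
      (∃ s : Fin n → Bool, ∀ m : ℕ, m ≤ d → ∀ u : ℝ, C * Real.sqrt t ≤ u →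
        ((Finset.univ.filter (fun i : Fin d => i.val < m ∧
          u < |∑ j, a i j * ((if s j then (1 : ℝ) else -1) - x0 j)|)).card : ℝ)
          ≤ K * Real.exp (-(c * (t / (1 + Real.log t) ^ 5))) * Real.exp (-(c * G3 t u)) * m) := by
  classical
  obtain ⟨c, K, C, hc, hK, hC, hP⟩ := final3
  refine ⟨c, K, C, hc, hK, hC, ?_⟩
  intro d n a x0 t ht a1 col hx0
  have hst : 0 ≤ C * Real.sqrt t := by positivity
  constructor
  · obtain ⟨w, hw0, hw1, hw2⟩ := mm_gen (Phi3 c (C * Real.sqrt t) t)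
      (K * Real.exp (-(c * (t / (1 + Real.log t) ^ 5)))) d n a x0 (by
        intro σ
        exact hP d n (fun i j => a (σ i) j) x0 t ht (fun i j => a1 _ _) (fun j => by
          rw [Equiv.sum_comp σ (fun i => a i j ^ 2)]
          exact col j) hx0)
    refine ⟨w, hw0, hw1, fun i u hu => ?_⟩
    exact markov w hw0 (fun s => ∑ j, a i j * ((if s j then (1 : ℝ) else -1) - x0 j)) c
      (C * Real.sqrt t) t u _ hc.le ht hst hu (hw2 i)
  · obtain ⟨y, hy1, hy2⟩ := hP d n a x0 t ht a1 col hx0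
    refine ⟨fun j => decide (y j = 1), fun m hm u hu => ?_⟩
    have hys : ∀ j, (if (decide (y j = 1)) = true then (1 : ℝ) else -1) = y j := by
      intro j
      rcases hy1 j with h | h
      · rw [h]; simp
      · rw [h]; norm_num
    simp only [hys]
    have h1 := markov (fun i : Fin d => if i.val < m then (1 : ℝ) else 0)
      (fun i => by split_ifs <;> norm_num)
      (fun i => ∑ j, a i j * (y j - x0 j)) c (C * Real.sqrt t) t u
      (K * Real.exp (-(c * (t / (1 + Real.log t) ^ 5))) * m) hc.le ht hst hu (by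
        refine le_trans (le_of_eq ?_) (hy2 m hm)
        rw [Finset.sum_filter]
        refine Finset.sum_congr rfl fun i _ => ?_
        split_ifs <;> simp)
    have h2 : ((Finset.univ.filter (fun i : Fin d => i.val < m ∧
          u < |∑ j, a i j * (y j - x0 j)|)).card : ℝ)
        = ∑ s ∈ Finset.univ.filter (fun i : Fin d => u < |∑ j, a i j * (y j - x0 j)|),
          (if s.val < m then (1 : ℝ) else 0) := by
      rw [← Finset.sum_filter, Finset.filter_filter, Finset.sum_const, nsmul_eq_mul, mul_one]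
      congr 2
      ext i
      simp only [Finset.mem_filter, Finset.mem_univ, true_and]
      tauto
    rw [h2]
    refine h1.trans (le_of_eq ?_)
    ring

end K19Kom2
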