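import Pool.Agent.K1H19.Kom2.Bud
import Pool.Agent.K1H19.Kom.Trans

/-!
# From one window to the next
-/

namespace K19Kom2

open Finset Real H167BJ H167BK H167KL K19Kom

variable {d n : ℕ}

/-- Rows with large alive energy. -/
noncomputable def RelT (C : Ctx d n) (x : Fin n → ℝ) (p : ℕ) : Finset (Fin d) := by
  classical
  exact Finset.univ.filter (fun i => 10 * C.t < 16 ^ p * ∑ v, (if |x v| < 1 then C.a i v else 0) ^ 2)

theorem mem_RelT {C : Ctx d n} {x : Fin n → ℝ} {p : ℕ} {i : Fin d} :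
    i ∈ RelT C x p ↔ 10 * C.t < 16 ^ p * ∑ v, (if |x v| < 1 then C.a i v else 0) ^ 2 := by
  unfold RelT
  rw [Finset.mem_filter]
  simp

theorem RelT_card (C : Ctx d n) (x : Fin n → ℝ) (p : ℕ) (m : ℝ)
    (hm : ((H167FK.Sys.alive x).card : ℝ) ≤ m) : ((RelT C x p).card : ℝ) ≤ m * 16 ^ p := by
  classical
  have ht := C.ht
  have h1 : (RelT C x p).card • (10 * C.t)
      ≤ ∑ i ∈ RelT C x p, 16 ^ p * ∑ v, (if |x v| < 1 then C.a i v else 0) ^ 2 :=
    Finset.card_nsmul_le_sum _ _ _ (fun i hi => (mem_RelT.mp hi).le)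
  have h2 : ∑ i ∈ RelT C x p, 16 ^ p * ∑ v, (if |x v| < 1 then C.a i v else 0) ^ 2
      ≤ ∑ i, (16 : ℝ) ^ p * ∑ v, (if |x v| < 1 then C.a i v else 0) ^ 2 :=
    Finset.sum_le_sum_of_subset_of_nonneg (Finset.subset_univ _) (fun i _ _ => by positivity)
  have h3 : ∑ i, (16 : ℝ) ^ p * ∑ v, (if |x v| < 1 then C.a i v else 0) ^ 2
      = 16 ^ p * ∑ v, ∑ i, (if |x v| < 1 then C.a i v else 0) ^ 2 := by
    rw [← Finset.mul_sum, Finset.sum_comm]
  have h4 : ∑ v, ∑ i, (if |x v| < 1 then C.a i v else 0) ^ 2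
      ≤ ∑ v, C.t * (if |x v| < 1 then (1 : ℝ) else 0) := by
    refine Finset.sum_le_sum fun v _ => ?_
    split_ifs with h
    · rw [mul_one]; exact C.col v
    · simp
  have h5 : ∑ v, (if |x v| < 1 then (1 : ℝ) else 0) = ((H167FK.Sys.alive x).card : ℝ) := by
    unfold H167FK.Sys.alive
    rw [Finset.card_filter]
    push_cast
    rfl
  rw [← Finset.mul_sum, h5] at h4
  have h6 : (16 : ℝ) ^ p * ∑ v, ∑ i, (if |x v| < 1 then C.a i v else 0) ^ 2
      ≤ 16 ^ p * (C.t * m) := by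
    apply mul_le_mul_of_nonneg_left _ (by positivity)
    exact h4.trans (mul_le_mul_of_nonneg_left hm (by linarith))
  rw [nsmul_eq_mul] at h1
  have h7 : (0 : ℝ) ≤ (RelT C x p).card := Nat.cast_nonneg _
  have h8 : C.t * ((RelT C x p).card : ℝ) ≤ C.t * (m * 16 ^ p) := by
    have h9 : 0 ≤ C.t * ((RelT C x p).card : ℝ) := by positivity
    nlinarith
  exact le_of_mul_le_mul_left h8 (by linarith)

theorem lv_cont (hW : S_WHIT2) {p0 T : ℕ} {i : Fin d} (hi : T < stt p0 i)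
    (h : ¬ 2 ^ lv p0 T i ∣ T + 1) :
    T + 1 < stt p0 i ∧ lv p0 (T + 1) i = lv p0 T i := by
  have h1 : lv p0 T i = lvl2 p0 (stt p0 i) T := if_pos hi
  rw [h1] at h
  obtain ⟨h2, h3⟩ := ((hW p0 (scl i / 2 ^ p0 + 1)).2.2 T _ h).mp ⟨hi, rfl⟩
  have h2' : T + 1 < stt p0 i := h2
  refine ⟨h2', ?_⟩
  rw [h1]
  have h4 : lv p0 (T + 1) i = lvl2 p0 (stt p0 i) (T + 1) := if_pos h2'
  rw [h4]
  exact h3

theorem lv_back (hW : S_WHIT2) {p0 T q : ℕ} {i : Fin d} (h : ¬ 2 ^ q ∣ T + 1)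
    (h1 : lv p0 (T + 1) i = q) : T < stt p0 i ∧ lv p0 T i = q := by
  by_cases h2 : T + 1 < stt p0 i
  · have h3 : lv p0 (T + 1) i = lvl2 p0 (stt p0 i) (T + 1) := if_pos h2
    rw [h3] at h1
    obtain ⟨h4, h5⟩ := ((hW p0 (scl i / 2 ^ p0 + 1)).2.2 T q h).mpr ⟨h2, h1⟩
    have h4' : T < stt p0 i := h4
    refine ⟨h4', ?_⟩
    have h6 : lv p0 T i = lvl2 p0 (stt p0 i) T := if_pos h4'
    rw [h6]
    exact h5
  · have h3 : lv p0 (T + 1) i = 0 := if_neg h2
    rw [h3] at h1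
    rw [← h1] at h
    exact absurd (by simp) h

theorem lv_frozen {p0 T : ℕ} {i : Fin d} (hi : ¬ T < stt p0 i) : lv p0 T i = 0 := if_neg hi

variable {C : Ctx d n} {T : ℕ}

/-- The data of the next window. -/
noncomputable def nxt (hW : S_WHIT2) (D : Dat C (T + 1)) (x : Fin n → ℝ) (hx : ∀ j, |x j| ≤ 1) :
    Dat C T where
  z := fun q => if 2 ^ q ∣ T + 1 then x else D.z q
  hz := fun q j => by
    split_ifs
    · exact hx j
    · exact D.hz q j
  xs := x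
  l0 := fun i => if 2 ^ lv C.p0 T i ∣ T + 1 then (if i ∈ RelT C x (lv C.p0 T i) then 0 else lv C.p0 T i)
    else D.l0 i
  hl0 := fun i hi => by
    by_cases h : 2 ^ lv C.p0 T i ∣ T + 1
    · rw [if_pos h, if_pos h]
      by_cases h2 : i ∈ RelT C x (lv C.p0 T i)
      · left; rw [if_pos h2]
      · right
        rw [if_neg h2]
        rw [mem_RelT] at h2
        push Not at h2
        exact h2
    · rw [if_neg h, if_neg h]
      obtain ⟨h1, h2⟩ := lv_cont hW hi h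
      have h3 := D.hl0 i h1
      rw [h2] at h3
      exact h3
  hl0L := fun i hi => by
    by_cases h : 2 ^ lv C.p0 T i ∣ T + 1
    · rw [if_pos h]
      split_ifs
      · exact Nat.zero_le _
      · exact (lv_lt C T i).le.trans C.hPL
    · rw [if_neg h]
      exact D.hl0L i (lv_cont hW hi h).1

section

variable (hW : S_WHIT2) (D : Dat C (T + 1)) (x : Fin n → ℝ) (hx : ∀ j, |x j| ≤ 1)

theorem nxt_z_fresh {q : ℕ} (h : 2 ^ q ∣ T + 1) : (nxt hW D x hx).z q = x := if_pos h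

theorem nxt_z_cont {q : ℕ} (h : ¬ 2 ^ q ∣ T + 1) : (nxt hW D x hx).z q = D.z q := if_neg h

theorem nxt_rowEq {i : Fin d} (hi : T < stt C.p0 i) (h : ¬ 2 ^ lv C.p0 T i ∣ T + 1) :
    RowEq D.sys (nxt hW D x hx).sys i := by
  obtain ⟨h1, h2⟩ := lv_cont hW hi h
  have hz : (nxt hW D x hx).z (lv C.p0 T i) = D.z (lv C.p0 (T + 1) i) := by
    rw [nxt_z_cont hW D x hx h, h2]
  have hh : (nxt hW D x hx).hh i = D.hh i := by
    unfold Dat.hh; rw [h2]
  have hl : (nxt hW D x hx).l0 i = D.l0 i := if_neg h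
  refine ⟨?_, hz, ?_, ?_, ?_, ?_, ?_, ?_, rfl, hl, rfl, rfl, rfl, ?_⟩
  · funext v
    show (nxt hW D x hx).ar i v = D.ar i v
    unfold Dat.ar
    rw [hz]
  · show θk C.t ((nxt hW D x hx).hh i) = θk C.t (D.hh i)
    rw [hh]
  · show dk C.t ((nxt hW D x hx).hh i) = dk C.t (D.hh i)
    rw [hh]
  · show yk C.t ((nxt hW D x hx).hh i) = yk C.t (D.hh i)
    rw [hh]
  · show lk C.t ((nxt hW D x hx).hh i) = lk C.t (D.hh i)
    rw [hh]
  · show rk C.t ((nxt hW D x hx).hh i) = rk C.t (D.hh i)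
    rw [hh]
  · show wk C.t ((nxt hW D x hx).hh i) = wk C.t (D.hh i)
    rw [hh]
  · show i ∈ Finset.univ.filter (fun i => T < stt C.p0 i) ↔
      i ∈ Finset.univ.filter (fun i => T + 1 < stt C.p0 i)
    simp [hi, h1]

theorem nxt_A_fresh {i : Fin d} (h : 2 ^ lv C.p0 T i ∣ T + 1) : (nxt hW D x hx).sys.A i x = 0 := by
  have h1 : (nxt hW D x hx).sys.x0 i = x := nxt_z_fresh hW D x hx h
  unfold K19Kom.Sys.A
  rw [h1]
  simp

theorem b_nonneg (D' : Dat C T) (τ : ℕ × Fin n) (i : Fin d) (l : ℕ) : 0 ≤ D'.sys.b τ i l := by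
  obtain ⟨q, v⟩ := τ
  rw [D'.b_eq]
  split_ifs <;> positivity

theorem Th_fresh {q : ℕ} (h : 2 ^ q ∣ T + 1) (v : Fin n) :
    (nxt hW D x hx).sys.Th (H167FK.Sys.alive x) (q, v) x ≤ 0 := by
  unfold K19Kom.Sys.Th
  refine Finset.sum_nonpos fun i _ => Finset.sum_nonpos fun l _ => ?_
  by_cases h1 : lv C.p0 T i = q
  · apply mul_nonpos_of_nonneg_of_nonpos (b_nonneg _ _ _ _)
    refine K19Kom.Sys.th_zero _ _ i l hx (nxt_A_fresh hW D x hx (by rw [h1]; exact h)) ?_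
    intro j hj
    exact H167FK.Sys.abs_eq_one hx hj
  · rw [Dat.b_eq, if_neg h1, zero_mul]

theorem Th_cont {q : ℕ} (h : ¬ 2 ^ q ∣ T + 1) (F : Finset (Fin n)) (v : Fin n) (y : Fin n → ℝ) :
    (nxt hW D x hx).sys.Th F (q, v) y = D.sys.Th F (q, v) y := by
  unfold K19Kom.Sys.Th
  refine Finset.sum_congr rfl fun i _ => Finset.sum_congr rfl fun l _ => ?_
  by_cases h1 : lv C.p0 T i = q
  · have hi : T < stt C.p0 i := by
      by_contra hcon
      rw [lv_frozen hcon] at h1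
      rw [← h1] at h
      exact h (by simp)
    have h2 : ¬ 2 ^ lv C.p0 T i ∣ T + 1 := by rw [h1]; exact h
    have hR := nxt_rowEq hW D x hx hi h2
    have h3 := (lv_cont hW hi h2).2
    rw [Dat.b_eq, Dat.b_eq, if_pos h1, if_pos (by rw [h3, h1]), hR.sm, hR.th]
    have hh : (nxt hW D x hx).hh i = D.hh i := by
      unfold Dat.hh; rw [h3]
    rw [hh]
  · rw [Dat.b_eq, Dat.b_eq, if_neg h1, if_neg (fun h2 => h1 (lv_back hW h h2).2)]
    simp

theorem pot_nxt (hI : D.sys.f (H167FK.Sys.alive x) x ≤ 2 * D.sys.N)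
    (hal : ((H167FK.Sys.alive x).card : ℝ) ≤ 64 * 2 ^ (T + 1)) :
    (nxt hW D x hx).sys.f (H167FK.Sys.alive x) x ≤ 2 * (nxt hW D x hx).sys.N := by
  classical
  set D' := nxt hW D x hx with hD'
  set F := H167FK.Sys.alive x with hF
  have hN : D.sys.N = 64 * 2 ^ (T + 2) := rfl
  have hN' : D'.sys.N = 64 * 2 ^ (T + 1) := rfl
  have e1 : ∑ τ ∈ D'.sys.S, D'.sys.wt τ * exp (D'.sys.Th F τ x)
      = ∑ τ ∈ Finset.range C.Pm ×ˢ (Finset.univ : Finset (Fin n)),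
        (if |D'.z τ.1 τ.2| < 1 then rho T τ.1 * exp (D'.sys.Th F τ x) else 0) := by
    show ∑ τ ∈ (Finset.range C.Pm ×ˢ Finset.univ).filter (fun τ => |D'.z τ.1 τ.2| < 1),
      rho T τ.1 * exp (D'.sys.Th F τ x) = _
    rw [Finset.sum_filter]
  have e2 : ∑ τ ∈ D.sys.S, D.sys.wt τ * exp (D.sys.Th F τ x)
      = ∑ τ ∈ Finset.range C.Pm ×ˢ (Finset.univ : Finset (Fin n)),
        (if |D.z τ.1 τ.2| < 1 then rho (T + 1) τ.1 * exp (D.sys.Th F τ x) else 0) := by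
    show ∑ τ ∈ (Finset.range C.Pm ×ˢ Finset.univ).filter (fun τ => |D.z τ.1 τ.2| < 1),
      rho (T + 1) τ.1 * exp (D.sys.Th F τ x) = _
    rw [Finset.sum_filter]
  have h1 : ∑ τ ∈ Finset.range C.Pm ×ˢ (Finset.univ : Finset (Fin n)),
        (if |D'.z τ.1 τ.2| < 1 then rho T τ.1 * exp (D'.sys.Th F τ x) else 0)
      ≤ ∑ τ ∈ Finset.range C.Pm ×ˢ (Finset.univ : Finset (Fin n)),
        (1 / 8 * (if |D.z τ.1 τ.2| < 1 then rho (T + 1) τ.1 * exp (D.sys.Th F τ x) else 0)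
          + (if |x τ.2| < 1 then (1 / 2 : ℝ) ^ (τ.1 + 2) else 0)) := by
    refine Finset.sum_le_sum fun τ _ => ?_
    obtain ⟨q, v⟩ := τ
    by_cases hq : 2 ^ q ∣ T + 1
    · have hz : D'.z q = x := nxt_z_fresh hW D x hx hq
      have hTh := Th_fresh hW D x hx hq v
      have h2 : exp (D'.sys.Th F (q, v) x) ≤ 1 := by
        rw [Real.exp_le_one_iff]; exact hTh
      have h3 := rho_le T q
      have h4 := rho_pos T q
      have h5 : 0 ≤ (if |D.z q v| < 1 then rho (T + 1) q * exp (D.sys.Th F (q, v) x) else 0) := by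
        have := rho_pos (T + 1) q
        split_ifs <;> positivity
      simp only [hz]
      split_ifs at h5 ⊢
      all_goals first | nlinarith [exp_pos (D'.sys.Th F (q, v) x)] | linarith
    · have hz : D'.z q = D.z q := nxt_z_cont hW D x hx hq
      have hTh := Th_cont hW D x hx hq F v x
      have h3 := rho_cont hq
      have h4 : (0 : ℝ) ≤ (if |x v| < 1 then (1 / 2 : ℝ) ^ (q + 2) else 0) := by
        split_ifs <;> positivity
      simp only [hz]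
      rw [hTh, h3]
      split_ifs at h4 ⊢
      all_goals linarith
  have h2 := sum_alive x C.Pm
  rw [Finset.sum_add_distrib, ← Finset.mul_sum] at h1
  have h3 := sum_one_sub x hx
  have h4 : 0 ≤ ∑ j, (1 - x j ^ 2) := by
    refine Finset.sum_nonneg fun j _ => ?_
    have h5 := hx j
    have h6 : x j ^ 2 ≤ 1 := by
      rw [← sq_abs]; nlinarith [abs_nonneg (x j)]
    linarith
  have h5 : D.sys.f F x = ∑ τ ∈ D.sys.S, D.sys.wt τ * exp (D.sys.Th F τ x)
      + ∑ j, (1 - x j ^ 2) := rfl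
  have h6 : D'.sys.f F x = ∑ τ ∈ D'.sys.S, D'.sys.wt τ * exp (D'.sys.Th F τ x)
      + ∑ j, (1 - x j ^ 2) := rfl
  rw [h5, e2, hN] at hI
  rw [h6, e1, hN']
  have h7 : (2 : ℝ) ^ (T + 2) = 2 * 2 ^ (T + 1) := by ring
  rw [h7] at hI
  rw [← hF] at h2 h3
  linarith

/-- The invariant is inherited. -/
theorem inv_nxt (hI : D.sys.Inv x) (hal : ((H167FK.Sys.alive x).card : ℝ) ≤ 64 * 2 ^ (T + 1)) :
    (nxt hW D x hI.box).sys.Inv x := by
  have hx := hI.box
  have hI1 : ∀ {i : Fin d}, i ∈ (nxt hW D x hI.box).sys.I1 → T < stt C.p0 i := by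
    intro i hi
    exact (Finset.mem_filter.mp hi).2
  refine ⟨hx, fun j _ => rfl, ?_, ?_, ?_, ?_, pot_nxt hW D x hx hI.pot hal⟩
  · intro i hi
    have h1 : stt C.p0 i ≤ T := (Finset.mem_filter.mp hi).2
    apply nxt_A_fresh
    rw [lv_frozen (by omega)]
    simp
  · intro i hi
    by_cases h : 2 ^ lv C.p0 T i ∣ T + 1
    · exact nxt_A_fresh hW D x hx h
    · have hR := nxt_rowEq hW D x hx (hI1 (K19Kom.Sys.mem_big _ |>.mp hi).1) h
      rw [hR.A]
      exact hI.bigz i ((hR.big _).mp hi)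
  · intro i hi
    by_cases h : 2 ^ lv C.p0 T i ∣ T + 1
    · exact K19Kom.Sys.fresh_med _ hx (nxt_A_fresh hW D x hx h) hi
    · have hR := nxt_rowEq hW D x hx (hI1 (K19Kom.Sys.mem_med _ |>.mp hi).1) h
      rw [hR.V, hR.Bd, hR.lev]
      exact hI.medb i ((hR.med _).mp hi)
  · intro i hi h1 h2
    by_cases h : 2 ^ lv C.p0 T i ∣ T + 1
    · exact K19Kom.Sys.sml_of_zero _ hi h1 h2 hx (nxt_A_fresh hW D x hx h)
    · have hR := nxt_rowEq hW D x hx (hI1 hi) h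
      rw [hR.Bq, hR.Bd, hR.mass, hR.g0]
      have hL : (nxt hW D x hx).sys.L = D.sys.L := rfl
      rw [hL]
      exact hI.smlb i (hR.I1.mp hi) (fun h3 => h1 ((hR.big _).mpr h3))
        (fun h3 => h2 ((hR.med _).mpr h3))

end

end K19Kom2
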